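import Pool.Agent.W16.FX.Defs
import Pool.Agent.H510R2.Div

/-!
Project FX (helper16), task FX-CLASS (helper398).
-/

set_option autoImplicit false

namespace Pool.Agent.W398.FX

open Finset Pool.Agent.W16.FX

lemma sum_vec (Φ : Fin 4 → ℤ) (t : Quad) : ∑ i, Φ i * t.vec i =
    Φ 0 * (t.p * t.q) + Φ 1 * (t.p * t.q') + Φ 2 * (t.p' * t.q) + Φ 3 * (t.p' * t.q') := by
  rw [Fin.sum_univ_four]
  rfl

/-- the integers dividing `D` -/
def dvs (D : ℤ) : Finset ℤ :=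
  (D.natAbs.divisors.image (fun n : ℕ => (n : ℤ))) ∪ (D.natAbs.divisors.image (fun n : ℕ => -(n : ℤ)))

lemma card_dvs (D : ℤ) : (dvs D).card ≤ 2 * D.natAbs.divisors.card := by
  unfold dvs
  refine (Finset.card_union_le _ _).trans ?_
  have h1 := Finset.card_image_le (s := D.natAbs.divisors) (f := fun n : ℕ => (n : ℤ))
  have h2 := Finset.card_image_le (s := D.natAbs.divisors) (f := fun n : ℕ => -(n : ℤ))
  omega

lemma mem_dvs {D g : ℤ} (hD : D ≠ 0) (h : g ∣ D) : g ∈ dvs D := by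
  unfold dvs
  have h1 : g.natAbs ∈ D.natAbs.divisors := by
    rw [Nat.mem_divisors]
    exact ⟨Int.natAbs_dvd_natAbs.2 h, Int.natAbs_ne_zero.2 hD⟩
  rw [mem_union, mem_image, mem_image]
  rcases Int.natAbs_eq g with h2 | h2
  · left
    exact ⟨g.natAbs, h1, h2.symm⟩
  · right
    exact ⟨g.natAbs, h1, h2.symm⟩

lemma sol_c {u M N : ℤ} (hu : 1 ≤ u) (hM : 1 ≤ M) (hN : 1 ≤ N) {s : Quad} (hs : Sol u M N s) :
    1 ≤ s.c N ∧ s.p ≤ s.c N ∧ s.p' ≤ s.c N ∧ s.q ≤ s.c N ∧ s.q' ≤ s.c N := by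
  have h1 := hs.p_pos
  have h2 := hs.p'_pos
  have h3 := hs.q_pos
  have h4 := hs.q'_pos
  have h5 := hs.eq
  have hc : s.c N = N * s.q' * s.p' ^ 3 := rfl
  have e1 : 1 ≤ s.p ^ 2 := one_le_pow₀ h1
  have e2 : 1 ≤ s.p' ^ 2 := one_le_pow₀ h2
  have e3 : s.p ≤ s.p ^ 3 := by nlinarith
  have e4 : s.p' ≤ s.p' ^ 3 := by nlinarith
  have e5 : 1 ≤ M * s.q := by nlinarith
  have e6 : 1 ≤ N * s.q' := by nlinarith
  have e7 : s.q ≤ M * s.q := by nlinarith
  have e8 : s.q' ≤ N * s.q' := by nlinarith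
  have e9 : 1 ≤ s.p ^ 3 := one_le_pow₀ h1
  have e10 : 1 ≤ s.p' ^ 3 := one_le_pow₀ h2
  have f1 : s.p' ≤ s.c N := by rw [hc]; nlinarith
  have f2 : s.q' ≤ s.c N := by rw [hc]; nlinarith
  have f3 : s.p ≤ s.c N := by rw [hc, ← h5]; nlinarith
  have f4 : s.q ≤ s.c N := by rw [hc, ← h5]; nlinarith
  exact ⟨by linarith, f3, f1, f4, f2⟩

/-- FX-CLASS -/
theorem stmtClass_of (hR : StmtRun) (hP : StmtPhi) (hZ : StmtZero) : StmtClass := by
  intro u hu ε hε
  obtain ⟨CR, hR⟩ := hR u hu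
  obtain ⟨CZ, hCZ, hZ⟩ := hZ u hu
  obtain ⟨C1, hC1, hdiv⟩ := Pool.Agent.H510R2.divisor_bound (ε / 12) (by positivity)
  refine ⟨CZ + 2 * CR * C1 * ((2 : ℝ) ^ 61) ^ (ε / 12) + 1, by positivity, ?_⟩
  intro M N hM hN s hs T hT hdep
  obtain ⟨hc1, b1, b2, b3, b4⟩ := sol_c hu hM hN hs
  set c : ℤ := s.c N with hc
  have hcR : (1 : ℝ) ≤ c := by exact_mod_cast hc1
  have hcε : 1 ≤ (c : ℝ) ^ ε := Real.one_le_rpow hcR hε.le
  have hq0 : 0 ≤ (s.q : ℝ) * s.q' / c := by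
    have h3 : (0 : ℝ) < s.q := by exact_mod_cast hs.q_pos
    have h4 : (0 : ℝ) < s.q' := by exact_mod_cast hs.q'_pos
    positivity
  -- bounds for the coordinates
  have hbd : ∀ t ∈ T, t.p ≤ 16 * c ∧ t.p' ≤ 16 * c ∧ t.q ≤ 16 * c ∧ t.q' ≤ 16 * c := by
    intro t ht
    obtain ⟨-, hn⟩ := hT t ht
    have := hn.p_le
    have := hn.p'_le
    have := hn.q_le
    have := hn.q'_le
    exact ⟨by linarith, by linarith, by linarith, by linarith⟩
  have hB1 : (1 : ℤ) ≤ 256 * c ^ 2 := by nlinarith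
  have hmul : ∀ x y : ℤ, 0 < x → 0 < y → x ≤ 16 * c → y ≤ 16 * c → |x * y| ≤ 256 * c ^ 2 := by
    intro x y hx hy h1 h2
    rw [abs_of_pos (mul_pos hx hy)]
    nlinarith
  obtain ⟨Φ, hΦ0, hΦB, hΦ⟩ := hP (T.image Quad.vec) (256 * c ^ 2) hB1 (by
      intro v hv i
      rw [mem_image] at hv
      obtain ⟨t, ht, rfl⟩ := hv
      obtain ⟨h1, h2, h3, h4⟩ := hbd t ht
      obtain ⟨hsol, -⟩ := hT t ht
      fin_cases i
      · exact hmul _ _ hsol.p_pos hsol.q_pos h1 h3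
      · exact hmul _ _ hsol.p_pos hsol.q'_pos h1 h4
      · exact hmul _ _ hsol.p'_pos hsol.q_pos h2 h3
      · exact hmul _ _ hsol.p'_pos hsol.q'_pos h2 h4) (by
      intro a ha b hb d hd e he
      rw [mem_image] at ha hb hd he
      obtain ⟨t1, ht1, rfl⟩ := ha
      obtain ⟨t2, ht2, rfl⟩ := hb
      obtain ⟨t3, ht3, rfl⟩ := hd
      obtain ⟨t4, ht4, rfl⟩ := he
      exact hdep t1 ht1 t2 ht2 t3 ht3 t4 ht4)
  have hΦT : ∀ t ∈ T, ∑ i, Φ i * t.vec i = 0 := fun t ht => hΦ _ (mem_image_of_mem _ ht)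
  by_cases h0 : Φ 0 * Φ 3 = Φ 1 * Φ 2
  · have h1 := hZ M N hM hN s hs T hT Φ hΦ0 h0 hΦT
    refine h1.trans ?_
    rw [← hc]
    apply mul_le_mul_of_nonneg_right _ (by positivity)
    have h2 : 0 ≤ 2 * (CR : ℝ) * C1 * ((2 : ℝ) ^ 61) ^ (ε / 12) := by positivity
    nlinarith
  · set Dt : ℤ := Φ 0 * Φ 3 - Φ 1 * Φ 2 with hDt
    have hDt0 : Dt ≠ 0 := sub_ne_zero.2 h0
    -- the integer `g`
    have key : ∀ t ∈ T, ∃ g : ℤ, g ≠ 0 ∧ g ∣ Dt ∧ Φ 0 * t.p + Φ 2 * t.p' = g * t.q' ∧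
        Φ 1 * t.p + Φ 3 * t.p' = -(g * t.q) := by
      intro t ht
      obtain ⟨hsol, -⟩ := hT t ht
      have e := hΦT t ht
      rw [sum_vec] at e
      have hcop := hsol.cop
      have hqq : IsCoprime t.q t.q' := by
        have h1 : IsCoprime (M * t.q) (N * t.q') :=
          (hcop.of_mul_left_left).of_mul_right_left
        exact (h1.of_mul_left_right).of_mul_right_right
      have hpp : IsCoprime t.p t.p' := (hcop.of_mul_left_right).of_mul_right_right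
      have e1 : t.q * (Φ 0 * t.p + Φ 2 * t.p') = -(t.q' * (Φ 1 * t.p + Φ 3 * t.p')) := by
        linear_combination e
      have h2 : t.q' ∣ t.q * (Φ 0 * t.p + Φ 2 * t.p') := ⟨-(Φ 1 * t.p + Φ 3 * t.p'), by
        rw [e1]; ring⟩
      obtain ⟨g, hg⟩ := hqq.symm.dvd_of_dvd_mul_left h2
      have hq' := hsol.q'_pos
      have hp := hsol.p_pos
      have hg2 : Φ 1 * t.p + Φ 3 * t.p' = -(g * t.q) := by
        apply mul_left_cancel₀ hq'.ne'
        rw [hg] at e1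
        linear_combination e1
      have a1 : Dt * t.p = g * (Φ 3 * t.q' + Φ 2 * t.q) := by
        rw [hDt]
        linear_combination (Φ 3) * hg - (Φ 2) * hg2
      have a2 : Dt * t.p' = -(g * (Φ 0 * t.q + Φ 1 * t.q')) := by
        rw [hDt]
        linear_combination (Φ 0) * hg2 - (Φ 1) * hg
      refine ⟨g, ?_, ?_, by rw [hg]; ring, hg2⟩
      · rintro rfl
        rw [zero_mul] at a1
        rcases mul_eq_zero.1 a1 with h | h
        · exact hDt0 h
        · exact hp.ne' h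
      · obtain ⟨x, y, hxy⟩ := hpp
        refine ⟨x * (Φ 3 * t.q' + Φ 2 * t.q) - y * (Φ 0 * t.q + Φ 1 * t.q'), ?_⟩
        calc Dt = x * (Dt * t.p) + y * (Dt * t.p') := by linear_combination (-Dt) * hxy
          _ = _ := by rw [a1, a2]; ring
    choose! g hg using key
    have hmaps : ∀ t ∈ T, g t ∈ dvs Dt := fun t ht => mem_dvs hDt0 (hg t ht).2.1
    have hcard : T.card ≤ CR * (dvs Dt).card := by
      refine Finset.card_le_mul_card_image_of_maps_to hmaps CR ?_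
      intro x hx
      by_cases hx0 : x = 0
      · have : T.filter (fun t => g t = x) = ∅ := by
          rw [Finset.filter_eq_empty_iff]
          intro t ht h
          exact (hg t ht).1 (h.trans hx0)
        rw [this]
        exact Nat.zero_le _
      · refine hR M N (Φ 0) (Φ 1) (Φ 2) (Φ 3) x hM hN hx0 hDt0 _ ?_ ?_
        · intro t ht
          rw [mem_filter] at ht
          obtain ⟨ht, rfl⟩ := ht
          obtain ⟨hsol, -⟩ := hT t ht
          have hpp : IsCoprime t.p t.p' := (hsol.cop.of_mul_left_right).of_mul_right_right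
          exact ⟨hsol.p_pos, hsol.p'_pos, hpp, hsol.eq, (hg t ht).2.2.1, (hg t ht).2.2.2⟩
        · intro t ht t' ht'
          have h1 := (hT t (mem_filter.1 ht).1).2.p'_le
          have h2 := (hT t' (mem_filter.1 ht').1).2.p'_ge
          linarith
    -- the size of the determinant
    have hDtB : (Dt.natAbs : ℝ) ≤ 2 ^ 61 * (c : ℝ) ^ 12 := by
      have h1 : |Dt| ≤ 2 * (64 * (256 * c ^ 2) ^ 3) ^ 2 := by
        rw [hDt]
        have h2 : |Φ 0 * Φ 3| ≤ (64 * (256 * c ^ 2) ^ 3) * (64 * (256 * c ^ 2) ^ 3) := by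
          rw [abs_mul]
          exact mul_le_mul (hΦB 0) (hΦB 3) (abs_nonneg _) (by positivity)
        have h3 : |Φ 1 * Φ 2| ≤ (64 * (256 * c ^ 2) ^ 3) * (64 * (256 * c ^ 2) ^ 3) := by
          rw [abs_mul]
          exact mul_le_mul (hΦB 1) (hΦB 2) (abs_nonneg _) (by positivity)
        have h4 := abs_sub (Φ 0 * Φ 3) (Φ 1 * Φ 2)
        linarith
      have h5 : |Dt| ≤ 2 ^ 61 * c ^ 12 := by
        refine h1.trans (le_of_eq ?_)
        ring
      rw [Nat.cast_natAbs]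
      exact_mod_cast h5
    have hDt1 : 1 ≤ Dt.natAbs := Nat.one_le_iff_ne_zero.2 (Int.natAbs_ne_zero.2 hDt0)
    have h6 := hdiv Dt.natAbs hDt1
    have h7 : ((Dt.natAbs : ℕ) : ℝ) ^ (ε / 12) ≤ ((2 : ℝ) ^ 61) ^ (ε / 12) * (c : ℝ) ^ ε := by
      refine (Real.rpow_le_rpow (Nat.cast_nonneg _) hDtB (by positivity)).trans (le_of_eq ?_)
      rw [Real.mul_rpow (by positivity) (by positivity)]
      congr 1
      rw [← Real.rpow_natCast, ← Real.rpow_mul (by linarith)]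
      congr 1
      push_cast
      ring
    have h8 : (T.card : ℝ) ≤ CR * (2 * (Dt.natAbs.divisors.card : ℝ)) := by
      have h9 : T.card ≤ CR * (2 * Dt.natAbs.divisors.card) :=
        hcard.trans (Nat.mul_le_mul_left _ (card_dvs Dt))
      exact_mod_cast h9
    calc (T.card : ℝ) ≤ CR * (2 * (Dt.natAbs.divisors.card : ℝ)) := h8
      _ ≤ CR * (2 * (C1 * (((2 : ℝ) ^ 61) ^ (ε / 12) * (c : ℝ) ^ ε))) := by
          gcongr
          exact h6.trans (mul_le_mul_of_nonneg_left h7 hC1.le)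
      _ = (2 * CR * C1 * ((2 : ℝ) ^ 61) ^ (ε / 12)) * (c : ℝ) ^ ε * 1 := by ring
      _ ≤ (CZ + 2 * CR * C1 * ((2 : ℝ) ^ 61) ^ (ε / 12) + 1) * (c : ℝ) ^ ε *
          (1 + (s.q : ℝ) * s.q' / c) := by
          gcongr
          · linarith
          · linarith

end Pool.Agent.W398.FX
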